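import Pool.Agent.Y912.KB.Ex
import Pool.Agent.Y912.KB.Up
import Pool.Agent.H75R3.KreissUp

/-!
The growth of the powers of strongly Kreiss bounded operators on `d`-dimensional complex Banach
spaces, in both parameters: for every constant `M ≥ 1`, every `n ≥ 1` and every `d ≥ 1` the
supremum of `‖T ^ n‖` lies between `min (√n) d / 33` and `6 M min (√n) d`.
-/

set_option autoImplicit false

namespace Pool.Agent.Results.MP_389529_an.TwoParameterGrowth

open Y912.KB

/-- `T` is strongly Kreiss bounded with constant (at most) `M`: its spectrum lies in the closed unit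
disc and `‖(z - T)⁻ᵏ‖ ≤ M / (|z| - 1)ᵏ` for all `k ≥ 1` and all `|z| > 1`. -/
def StronglyKreissBounded {X : Type} [NormedAddCommGroup X] [NormedSpace ℂ X]
    (T : X →L[ℂ] X) (M : ℝ) : Prop :=
  (∀ z ∈ spectrum ℂ T, ‖z‖ ≤ 1) ∧
    ∀ k : ℕ, 1 ≤ k → ∀ z : ℂ, 1 < ‖z‖ → ‖(resolvent T z) ^ k‖ ≤ M / (‖z‖ - 1) ^ k

/-- The set of the numbers `‖T ^ n‖`, over all complex Banach spaces of dimension `d` and all
strongly Kreiss bounded operators `T` with constant at most `M` on them. -/
def norms (M : ℝ) (n d : ℕ) : Set ℝ :=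
  {r | ∃ (X : Type) (_ : NormedAddCommGroup X) (_ : NormedSpace ℂ X) (_ : FiniteDimensional ℂ X)
    (T : X →L[ℂ] X), Module.finrank ℂ X = d ∧ StronglyKreissBounded T M ∧ r = ‖T ^ n‖}

theorem strongly_one {ι : Type} [Fintype ι] (f : H75R3.Freq ι) (M : ℝ) (hM : 1 ≤ M) :
    StronglyKreissBounded (H75R3.TT f) M := by
  constructor
  · intro z hz
    by_contra h
    rw [not_le] at h
    exact (H75R3.resolvent_facts f z h).1 hz
  · intro k hk z hz
    have h1 := (H75R3.resolvent_facts f z hz).2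
    have h2 : 0 < ‖z‖ - 1 := by linarith
    refine (norm_pow_le' _ (by omega)).trans ?_
    calc ‖resolvent (H75R3.TT f) z‖ ^ k ≤ (1 / (‖z‖ - 1)) ^ k :=
          pow_le_pow_left₀ (norm_nonneg _) h1 k
      _ = 1 / (‖z‖ - 1) ^ k := by rw [div_pow, one_pow]
      _ ≤ M / (‖z‖ - 1) ^ k := by gcongr

theorem upper (M : ℝ) (hM : 1 ≤ M) (n d : ℕ) (hn : 1 ≤ n) (r : ℝ) (hr : r ∈ norms M n d) :
    r ≤ 6 * M * min (Real.sqrt n) d := by
  obtain ⟨X, i1, i2, i3, T, hdim, hT, rfl⟩ := hr
  have hc : CompleteSpace X := FiniteDimensional.complete ℂ X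
  have h1 := sqrt_bound T M (by linarith) hT.1 hT.2 n hn
  have h2 := H75R3.kreiss_linear T M (by linarith) hT.1 (by
    intro z hz
    have := hT.2 1 le_rfl z hz
    rwa [pow_one, pow_one] at this) n hn
  rw [hdim] at h2
  have he := Real.exp_one_lt_d9
  have hs := Real.sqrt_nonneg (n : ℝ)
  have hd0 : (0 : ℝ) ≤ d := Nat.cast_nonneg d
  have hM0 : 0 ≤ M := by linarith
  rcases le_total (Real.sqrt n) d with h | h
  · rw [min_eq_left h]
    have : 0 ≤ M * Real.sqrt n := by positivity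
    linarith
  · rw [min_eq_right h]
    have h3 : 0 ≤ M * (d : ℝ) := by positivity
    have h4 : 2 * Real.exp 1 * M * d = (2 * Real.exp 1) * (M * d) := by ring
    have h5 : (2 * Real.exp 1) * (M * d) ≤ 6 * (M * d) :=
      mul_le_mul_of_nonneg_right (by linarith) h3
    linarith

theorem lower (M : ℝ) (hM : 1 ≤ M) (n d : ℕ) (hn : 1 ≤ n) (hd : 1 ≤ d) :
    ∃ r ∈ norms M n d, min (Real.sqrt n) d / 33 ≤ r := by
  have hn1 : (1 : ℝ) ≤ Real.sqrt n := by
    rw [Real.one_le_sqrt]
    exact_mod_cast hn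
  rcases Nat.lt_or_ge d 2 with hd2 | hd2
  · have hd1 : d = 1 := by omega
    subst hd1
    -- the identity on the line
    refine ⟨‖(1 : ℂ →L[ℂ] ℂ) ^ n‖, ⟨ℂ, inferInstance, inferInstance, inferInstance, 1,
      Module.finrank_self ℂ, ?_, rfl⟩, ?_⟩
    · have key : ∀ z : ℂ, 1 < ‖z‖ → IsUnit (algebraMap ℂ (ℂ →L[ℂ] ℂ) z - 1) ∧
          ‖resolvent (1 : ℂ →L[ℂ] ℂ) z‖ ≤ 1 / (‖z‖ - 1) := by
        intro z hz
        have hz1 : z - 1 ≠ 0 := by
          intro h
          have : z = 1 := sub_eq_zero.1 h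
          rw [this, norm_one] at hz
          linarith
        have e1 : algebraMap ℂ (ℂ →L[ℂ] ℂ) z - 1 = algebraMap ℂ (ℂ →L[ℂ] ℂ) (z - 1) := by
          rw [map_sub, map_one]
        have hu : IsUnit (algebraMap ℂ (ℂ →L[ℂ] ℂ) z - 1) := by
          rw [e1]
          exact (IsUnit.mk0 _ hz1).map (algebraMap ℂ (ℂ →L[ℂ] ℂ))
        refine ⟨hu, ?_⟩
        have e2 : resolvent (1 : ℂ →L[ℂ] ℂ) z = algebraMap ℂ (ℂ →L[ℂ] ℂ) (z - 1)⁻¹ := by
          have h3 : algebraMap ℂ (ℂ →L[ℂ] ℂ) (z - 1)⁻¹ * (algebraMap ℂ (ℂ →L[ℂ] ℂ) z - 1) = 1 := by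
            rw [e1, ← map_mul, inv_mul_cancel₀ hz1, map_one]
          have h4 : (algebraMap ℂ (ℂ →L[ℂ] ℂ) z - 1) * resolvent (1 : ℂ →L[ℂ] ℂ) z = 1 :=
            Ring.mul_inverse_cancel _ hu
          calc resolvent (1 : ℂ →L[ℂ] ℂ) z = (algebraMap ℂ (ℂ →L[ℂ] ℂ) (z - 1)⁻¹ *
                (algebraMap ℂ (ℂ →L[ℂ] ℂ) z - 1)) * resolvent (1 : ℂ →L[ℂ] ℂ) z := by
                rw [h3, one_mul]
            _ = _ := by rw [mul_assoc, h4, mul_one]
        rw [e2, norm_algebraMap', norm_inv, one_div]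
        apply inv_anti₀ (by linarith)
        have := norm_sub_norm_le z 1
        rwa [norm_one] at this
      constructor
      · intro z hz
        by_contra h
        rw [not_le] at h
        rw [spectrum.mem_iff] at hz
        exact hz (key z h).1
      · intro k hk z hz
        have h2 : 0 < ‖z‖ - 1 := by linarith
        refine (norm_pow_le' _ (by omega)).trans ?_
        calc ‖resolvent (1 : ℂ →L[ℂ] ℂ) z‖ ^ k ≤ (1 / (‖z‖ - 1)) ^ k :=
              pow_le_pow_left₀ (norm_nonneg _) (key z hz).2 k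
          _ = 1 / (‖z‖ - 1) ^ k := by rw [div_pow, one_pow]
          _ ≤ M / (‖z‖ - 1) ^ k := by gcongr
    · rw [one_pow, norm_one, min_eq_right (by simpa using hn1)]
      norm_num
  · -- the example
    set m : ℕ := min (Nat.sqrt n) (d / 2) with hm
    have hs1 : 1 ≤ Nat.sqrt n := by
      rw [Nat.one_le_iff_ne_zero, Ne, Nat.sqrt_eq_zero]
      omega
    have hm1 : 1 ≤ m := le_min hs1 (by omega)
    have hm0 : m ≠ 0 := by omega
    have hmn : m ^ 2 ≤ n := by
      calc m ^ 2 ≤ (Nat.sqrt n) ^ 2 := Nat.pow_le_pow_left (min_le_left _ _) 2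
        _ ≤ n := Nat.sqrt_le' n
    have hmn1 : m ≤ n := le_trans (by nlinarith) hmn
    have hmd : 2 * m ≤ d := by
      have : m ≤ d / 2 := min_le_right _ _
      omega
    refine ⟨‖H75R3.TT (fr m (d - 2 * m) n hm0 hmn1) ^ n‖, ⟨H75R3.ES (fr m (d - 2 * m) n hm0 hmn1),
      inferInstance, inferInstance, inferInstance, H75R3.TT _, ?_, strongly_one _ M hM, rfl⟩, ?_⟩
    · rw [finrank_ES]
      omega
    · refine le_trans ?_ (lower_example m (d - 2 * m) n hm0 hmn1 hmn)
      have hpi := Real.pi_lt_d4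
      have hpi0 := Real.pi_pos
      rw [div_le_div_iff₀ (by norm_num) (by positivity)]
      -- min √n d ≤ 3 m
      have h3 : min (Real.sqrt n) (d : ℝ) ≤ 3 * m := by
        rcases le_total (Nat.sqrt n) (d / 2) with h | h
        · refine (min_le_left _ _).trans ?_
          have e : m = Nat.sqrt n := min_eq_left h
          rw [e]
          have h4 : (n : ℝ) ≤ ((Nat.sqrt n : ℝ) + 1) ^ 2 := by
            have := Nat.lt_succ_sqrt' n
            have h5 : n ≤ (Nat.sqrt n + 1) ^ 2 := this.le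
            exact_mod_cast h5
          have h5 : Real.sqrt n ≤ (Nat.sqrt n : ℝ) + 1 := by
            rw [Real.sqrt_le_left (by positivity)]
            exact h4
          have h6 : (1 : ℝ) ≤ (Nat.sqrt n : ℝ) := by exact_mod_cast hs1
          linarith
        · refine (min_le_right _ _).trans ?_
          have e : m = d / 2 := min_eq_right h
          have h4 : d ≤ 3 * m := by omega
          exact_mod_cast h4
      have hm' : (0 : ℝ) < m := by
        have : 0 < m := by omega
        exact_mod_cast this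
      calc min (Real.sqrt n) (d : ℝ) * (7 * Real.pi) ≤ (3 * m) * (7 * Real.pi) := by gcongr
        _ ≤ 2 * m * 33 := by nlinarith

/-- **Growth in both parameters.** For every `M ≥ 1`, every `n ≥ 1` and every `d ≥ 1` the supremum
of `‖T ^ n‖` over all strongly Kreiss bounded operators `T` with constant at most `M` on
`d`-dimensional complex Banach spaces is finite, and lies between `min (√n) d / 33` and
`6 M min (√n) d`. -/
theorem result (M : ℝ) (hM : 1 ≤ M) (n d : ℕ) (hn : 1 ≤ n) (hd : 1 ≤ d) :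
    (norms M n d).Nonempty ∧ BddAbove (norms M n d) ∧
      min (Real.sqrt n) d / 33 ≤ sSup (norms M n d) ∧
      sSup (norms M n d) ≤ 6 * M * min (Real.sqrt n) d := by
  obtain ⟨r, hr, hr2⟩ := lower M hM n d hn hd
  have hne : (norms M n d).Nonempty := ⟨r, hr⟩
  have hb : BddAbove (norms M n d) := ⟨_, fun x hx => upper M hM n d hn x hx⟩
  exact ⟨hne, hb, hr2.trans (le_csSup hb hr), csSup_le hne fun x hx => upper M hM n d hn x hx⟩

end Pool.Agent.Results.MP_389529_an.TwoParameterGrowth
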